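import Pool.Agent.Helper93_FL.CDefs

/-!
# Module C1: forcing and Boolean values
-/

open MeasureTheory Set

namespace Pool.Agent.FL.H25

variable {B : Type} [CompleteBooleanAlgebra B]

section gen
variable {P : Type} [Preorder P] {io : P → B}

theorem inf_iSup_ne {ι : Type} {x : B} {f : ι → B} (h : x ⊓ ⨆ i, f i ≠ ⊥) : ∃ i, x ⊓ f i ≠ ⊥ := by
  by_contra hcon
  push Not at hcon
  apply h
  rw [inf_iSup_eq, iSup_eq_bot]
  exact hcon

/-- Forcing of a Boolean value. -/
theorem le_iff_dense (hio : IsDenseEmb io) (p : P) (b : B) :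
    io p ≤ b ↔ ∀ q ≤ p, ∃ r ≤ q, io r ≤ b := by
  constructor
  · intro h q hq
    exact ⟨q, le_rfl, (hio.mono q p hq).trans h⟩
  · intro h
    by_contra hcon
    have h1 : bᶜ ⊓ io p ≠ ⊥ := by
      intro h2
      apply hcon
      rw [inf_comm] at h2
      exact (disjoint_compl_right_iff.1 (disjoint_iff.2 h2))
    obtain ⟨q, hq, hqb⟩ := hio.dense p _ h1
    obtain ⟨r, hr, hrb⟩ := h q hq
    have h3 : io r ≤ bᶜ := (hio.mono r q hr).trans hqb
    exact hio.ne_bot r (le_bot_iff.1 ((le_inf hrb h3).trans (by simp)))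

theorem le_compl_iff_forall (hio : IsDenseEmb io) (p : P) (b : B) :
    io p ≤ bᶜ ↔ ∀ q ≤ p, ¬ io q ≤ b := by
  constructor
  · intro h q hq hqb
    have h3 : io q ≤ bᶜ := (hio.mono q p hq).trans h
    exact hio.ne_bot q (le_bot_iff.1 ((le_inf hqb h3).trans (by simp)))
  · intro h
    by_contra hcon
    have h1 : b ⊓ io p ≠ ⊥ := by
      intro h2
      apply hcon
      rw [inf_comm] at h2
      exact (disjoint_iff.2 h2).le_compl_right
    obtain ⟨q, hq, hqb⟩ := hio.dense p _ h1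
    exact h q hq hqb

theorem exists_decide (hio : IsDenseEmb io) (p : P) (b : B) : ∃ q ≤ p, io q ≤ b ∨ io q ≤ bᶜ := by
  by_cases h : ∃ q ≤ p, io q ≤ b
  · obtain ⟨q, hq, hqb⟩ := h
    exact ⟨q, hq, Or.inl hqb⟩
  · push Not at h
    exact ⟨p, le_rfl, Or.inr ((le_compl_iff_forall hio p b).2 h)⟩

end gen

/-- Every condition decides every measurable set. -/
theorem exists_decideSet (hC : ConstStmt) (p : Cond Ix) (A : Set (Pt Ix)) (hA : MeasurableSet A) :
    ∃ q ≤ p, q.body ⊆ A ∨ q.body ⊆ Aᶜ := by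
  obtain ⟨h1, -, -⟩ := hC Ix Set.univ (fun _ _ _ _ => Set.mem_univ _) p
    (fun i hi => absurd (Set.mem_univ i) hi)
  obtain ⟨q, hq, -, h⟩ := h1 A hA (fun y y' h => by
    have : y = y' := funext fun i => h i (Set.mem_univ i)
    rw [this])
  exact ⟨q, hq, h⟩

variable {io : Cond Ix → B}

theorem disj_hh (hio : IsDenseEmb io) {p : Cond Ix} {A : Set (Pt Ix)} (h : p.body ⊆ Aᶜ) :
    io p ⊓ hh io A = ⊥ := by
  by_contra hcon
  obtain ⟨⟨r, hr⟩, h1⟩ := inf_iSup_ne hcon
  obtain ⟨s, hsp, hsr⟩ := hio.compat p r h1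
  obtain ⟨y, hy⟩ := s.body_nonempty
  exact h (hsp hy) (hr (hsr hy))

theorem le_hh {p : Cond Ix} {A : Set (Pt Ix)} (h : p.body ⊆ A) : io p ≤ hh io A :=
  le_iSup (fun q : {q : Cond Ix // q.body ⊆ A} => io q.1) ⟨p, h⟩

theorem le_hh_iff (hC : ConstStmt) (hio : IsDenseEmb io) (p : Cond Ix) (A : Set (Pt Ix))
    (hA : MeasurableSet A) : io p ≤ hh io A ↔ ∀ q ≤ p, ¬ q.body ⊆ Aᶜ := by
  constructor
  · intro h q hq hqA
    have h1 := disj_hh hio hqA
    have h2 : io q ≤ hh io A := (hio.mono q p hq).trans h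
    rw [inf_eq_left.2 h2] at h1
    exact hio.ne_bot q h1
  · intro h
    rw [le_iff_dense hio]
    intro q hq
    obtain ⟨r, hr, hrA⟩ := exists_decideSet hC q A hA
    rcases hrA with hrA | hrA
    · exact ⟨r, hr, le_hh hrA⟩
    · exact absurd hrA (h r (hr.trans hq))

theorem exists_body_subset (hC : ConstStmt) (hio : IsDenseEmb io) (p : Cond Ix) (A : Set (Pt Ix))
    (hA : MeasurableSet A) (h : io p ≤ hh io A) : ∃ q ≤ p, q.body ⊆ A := by
  obtain ⟨q, hq, hqA⟩ := exists_decideSet hC p A hA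
  rcases hqA with hqA | hqA
  · exact ⟨q, hq, hqA⟩
  · exact absurd hqA ((le_hh_iff hC hio p A hA).1 h q hq)

theorem hh_empty : hh io ∅ = ⊥ := by
  unfold hh
  rw [iSup_eq_bot]
  rintro ⟨p, hp⟩
  obtain ⟨y, hy⟩ := p.body_nonempty
  exact (hp hy).elim

theorem iSup_io (hio : IsDenseEmb io) : (⨆ p, io p) = ⊤ := by
  by_contra hcon
  have h1 : (⨆ p, io p)ᶜ ≠ ⊥ := fun h => hcon (compl_eq_bot.1 h)
  obtain ⟨q, hq⟩ := hio.exists_le _ h1
  exact hio.ne_bot q (le_bot_iff.1 ((le_inf (le_iSup io q) hq).trans (by simp)))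

theorem hh_univ (hio : IsDenseEmb io) : hh io Set.univ = ⊤ := by
  rw [← top_le_iff, ← iSup_io hio]
  exact iSup_le fun p => le_hh (Set.subset_univ _)

theorem hh_compl (hC : ConstStmt) (hio : IsDenseEmb io) (A : Set (Pt Ix))
    (hA : MeasurableSet A) : hh io Aᶜ = (hh io A)ᶜ := by
  apply le_antisymm
  · refine iSup_le ?_
    rintro ⟨p, hp⟩
    exact (disjoint_iff.2 (disj_hh hio hp)).le_compl_right
  · by_contra hcon
    have h1 : (hh io A)ᶜ ⊓ (hh io Aᶜ)ᶜ ≠ ⊥ := by
      intro h2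
      exact hcon (disjoint_compl_right_iff.1 (disjoint_iff.2 h2))
    obtain ⟨q, hqb⟩ := hio.exists_le _ h1
    obtain ⟨r, hr, hrA⟩ := exists_decideSet hC q A hA
    have h3 := (hio.mono r q hr).trans hqb
    rcases hrA with hrA | hrA
    · exact hio.ne_bot r (le_bot_iff.1 ((le_inf (le_hh hrA) (h3.trans inf_le_left)).trans
        (by simp)))
    · exact hio.ne_bot r (le_bot_iff.1 ((le_inf (le_hh hrA) (h3.trans inf_le_right)).trans
        (by simp)))

theorem hh_main (hC : ConstStmt) : HHStmt := by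
  intro B _ io hio
  exact ⟨fun _ _ h => le_hh h, fun p A hA => le_hh_iff hC hio p A hA,
    fun A hA => hh_compl hC hio A hA,
    fun p b => le_iff_dense hio p b, fun p b => le_compl_iff_forall hio p b,
    fun p b => exists_decide hio p b, fun p A hA h => exists_body_subset hC hio p A hA h,
    fun p A hA => exists_decideSet hC p A hA, hh_empty, hh_univ hio⟩

end Pool.Agent.FL.H25
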