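import Pool.Agent.Helper25_FL.C1

/-!
# Module C3: equal readings give equal names
-/

open MeasureTheory Set

namespace Pool.Agent.FL.H25

variable {B : Type} [CompleteBooleanAlgebra B] {io : Cond Ix → B}

theorem inf_hh_le (hio : IsDenseEmb io) (p : Cond Ix) (A A' : Set (Pt Ix))
    (h : p.body ∩ A ⊆ A') : io p ⊓ hh io A ≤ hh io A' := by
  by_contra hcon
  have h1 : (hh io A')ᶜ ⊓ io p ⊓ hh io A ≠ ⊥ := by
    intro h2
    apply hcon
    rw [inf_assoc, inf_comm] at h2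
    exact disjoint_compl_right_iff.1 (disjoint_iff.2 h2)
  obtain ⟨⟨r, hr⟩, h2⟩ := inf_iSup_ne h1
  obtain ⟨q, hq, hqb⟩ := hio.dense r _ h2
  have h3 : io p ⊓ io q ≠ ⊥ := by
    rw [inf_eq_right.2 (hqb.trans inf_le_right)]
    exact hio.ne_bot q
  obtain ⟨s, hsp, hsq⟩ := hio.compat p q h3
  have h4 : s.body ⊆ A' := fun y hy => h ⟨hsp hy, hr (hq (hsq hy))⟩
  exact hio.ne_bot s (le_bot_iff.1 ((le_inf (le_hh h4)
    ((hio.mono s q hsq).trans (hqb.trans inf_le_left))).trans (by simp)))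

theorem le_beq_sb (h1 : A1Stmt) (x : B) (b b' : ℕ → B) (h : ∀ n, x ⊓ b n ≤ b' n)
    (h' : ∀ n, x ⊓ b' n ≤ b n) : x ≤ beq (sb b) (sb b') := by
  obtain ⟨hr, hs, -⟩ := h1 B
  unfold sb
  rw [beq]
  refine le_inf (le_iInf fun i => ?_) (le_iInf fun i => ?_)
  · rw [le_himp_iff]
    refine le_trans ?_ (le_iSup _ i)
    rw [hr, inf_top_eq]
    exact h _
  · rw [le_himp_iff]
    refine le_trans ?_ (le_iSup _ i)
    rw [hr, inf_top_eq]
    exact h' _

theorem codeEq (h1 : A1Stmt) : CodeEqStmt := by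
  intro B _ io hio p S S' _ _ h
  refine le_beq_sb h1 _ _ _ (fun n => ?_) (fun n => ?_)
  · refine inf_hh_le hio p _ _ ?_
    rintro y ⟨hy, hn⟩
    have hn' : n ∈ S y := hn
    rw [h y hy] at hn'
    exact hn'
  · refine inf_hh_le hio p _ _ ?_
    rintro y ⟨hy, hn⟩
    have hn' : n ∈ S' y := hn
    rw [← h y hy] at hn'
    exact hn'

end Pool.Agent.FL.H25
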