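import Pool.Agent.Helper93_FL.RDefs

/-!
# Module R5: the random continuation of a partial point
-/

open MeasureTheory Set

namespace Pool.Agent.FL.H25

variable {I : Type} [LinearOrder I] [WellFoundedLT I]

theorem X_eq (p : Cond I) (u : I → Rd) (i : I) : p.X u i = phi (p.T i (p.X u)) (u i) := by
  classical
  have h := (wellFounded_lt (α := I)).fix_eq (C := fun _ => Br) (fun i ih =>
    phi (p.T i (fun j => if h : j < i then ih j h else fun m => ⟨0, sz_pos m⟩)) (u i)) i
  refine Eq.trans h ?_
  change phi (p.T i (fun j => if h : j < i then p.X u j else fun m => ⟨0, sz_pos m⟩)) (u i) = _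
  congr 1
  apply p.T_congr
  intro j hj
  simp [hj]

theorem XJ_mem (p : Cond I) (J : Set I) (y : Pt I) (v : I → Rd) (i : I) (hi : i ∈ J) :
    p.XJ J y v i = y i := by
  classical
  unfold Cond.XJ
  rw [WellFounded.fix_eq, if_pos hi]

theorem XJ_notMem (p : Cond I) (J : Set I) (y : Pt I) (v : I → Rd) (i : I) (hi : i ∉ J) :
    p.XJ J y v i = phi (p.T i (p.XJ J y v)) (v i) := by
  classical
  have h := (wellFounded_lt (α := I)).fix_eq (C := fun _ => Br) (fun i ih => if i ∈ J then y i else
    phi (p.T i (fun j => if h : j < i then ih j h else fun m => ⟨0, sz_pos m⟩)) (v i)) i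
  rw [if_neg hi] at h
  refine Eq.trans h ?_
  change phi (p.T i (fun j => if h : j < i then p.XJ J y v j else fun m => ⟨0, sz_pos m⟩)) (v i) = _
  congr 1
  apply p.T_congr
  intro j hj
  simp [hj]

theorem XJ_congr (p : Cond I) (J : Set I) (y y' : Pt I) (v v' : I → Rd)
    (hy : ∀ i ∈ J, y i = y' i) (hv : ∀ i, i ∉ J → v i = v' i) : p.XJ J y v = p.XJ J y' v' := by
  funext i
  induction i using (wellFounded_lt (α := I)).induction with
  | _ i ih =>
    by_cases hi : i ∈ J
    · rw [XJ_mem p J y v i hi, XJ_mem p J y' v' i hi, hy i hi]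
    · rw [XJ_notMem p J y v i hi, XJ_notMem p J y' v' i hi, hv i hi]
      congr 1
      exact p.T_congr fun j hj => ih j hj

theorem XJ_X (p : Cond I) (J : Set I) (u : I → Rd) : p.XJ J (p.X u) u = p.X u := by
  funext i
  induction i using (wellFounded_lt (α := I)).induction with
  | _ i ih =>
    by_cases hi : i ∈ J
    · rw [XJ_mem p J _ _ i hi]
    · rw [XJ_notMem p J _ _ i hi, X_eq p u i]
      congr 1
      exact p.T_congr fun j hj => ih j hj

theorem measurable_phi_comp (h1 : PhiStmt) {Ω : Type} [MeasurableSpace Ω] (f : Ω → Set Node)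
    (g : Ω → Rd) (hf : Measurable f) (hg : Measurable g) : Measurable (fun z => phi (f z) (g z)) := by
  have hphi : Measurable (fun x : Set Node × Rd => phi x.1 x.2) := h1.2.2.2.1
  have h5 : Measurable (fun z => (f z, g z)) := hf.prodMk hg
  have h6 := Measurable.comp (g := fun x : Set Node × Rd => phi x.1 x.2) hphi h5
  have h7 : (fun z => phi (f z) (g z)) =
    (fun x : Set Node × Rd => phi x.1 x.2) ∘ (fun z => (f z, g z)) := rfl
  rw [h7]
  exact h6

theorem measurable_XJ (h1 : PhiStmt) (p : Cond I) (J : Set I) :
    Measurable (fun z : Pt I × (I → Rd) => p.XJ J z.1 z.2) := by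
  classical
  rw [measurable_pi_iff]
  intro i
  induction i using (wellFounded_lt (α := I)).induction with
  | _ i ih =>
    by_cases hi : i ∈ J
    · have : (fun z : Pt I × (I → Rd) => p.XJ J z.1 z.2 i) = fun z => z.1 i := by
        funext z
        exact XJ_mem p J _ _ i hi
      rw [this]
      exact (measurable_pi_apply i).comp measurable_fst
    · let Y : Pt I × (I → Rd) → Pt I := fun z j =>
        if j < i then p.XJ J z.1 z.2 j else fun m => ⟨0, sz_pos m⟩
      have hY : Measurable Y := by
        rw [measurable_pi_iff]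
        intro j
        by_cases hj : j < i
        · have : (fun z => Y z j) = fun z => p.XJ J z.1 z.2 j := by
            funext z
            simp [Y, hj]
          rw [this]
          exact ih j hj
        · have : (fun z => Y z j) = fun _ m => ⟨0, sz_pos m⟩ := by
            funext z
            simp [Y, hj]
          rw [this]
          exact measurable_const
      have h2 : (fun z : Pt I × (I → Rd) => p.XJ J z.1 z.2 i) =
          fun z => phi (p.T i (Y z)) (z.2 i) := by
        funext z
        rw [XJ_notMem p J _ _ i hi]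
        congr 1
        apply p.T_congr
        intro j hj
        simp [Y, hj]
      rw [h2]
      have h3 : Measurable (fun z : Pt I × (I → Rd) => p.T i (Y z)) := (p.meas i).comp hY
      have h4 : Measurable (fun z : Pt I × (I → Rd) => z.2 i) :=
        (measurable_pi_apply i).comp measurable_snd
      exact measurable_phi_comp h1 _ _ h3 h4

theorem r5 (h1 : PhiStmt) : R5Stmt := by
  intro I _ _ p J hJ
  refine ⟨fun y v i hi => XJ_mem p J y v i hi, fun y v i hi => XJ_notMem p J y v i hi, ?_,
    fun u => XJ_X p J u, fun y y' v v' hy hv => XJ_congr p J y y' v v' hy hv,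
    measurable_XJ h1 p J⟩
  intro y v hy i
  by_cases hi : i ∈ J
  · rw [XJ_mem p J y v i hi, p.T_congr (y' := y) (fun j hj => XJ_mem p J y v j (hJ hj.le hi))]
    exact hy i hi
  · rw [XJ_notMem p J y v i hi]
    exact h1.2.1 _ (p.good _ _) _

end Pool.Agent.FL.H25
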